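import Pool.Agent.Helper78.W3.StD

/-!
# Project W3: solutions of the relation with given leading form
-/

set_option autoImplicit false

namespace Pool.Agent.Helper62.W3

open Pool.Agent.Helper78.W3 Pool.Agent.Helper14.W3
open Pool.Agent.Helper14.CV (Homog EqC act Tl)

private theorem tpl {M : Type*} [AddCommGroup M] [Module (ZMod 3) M] (x : M) : x + x + x = 0 := by
  have h : ((3 : ℕ) : ZMod 3) • x = x + x + x := by
    rw [Nat.cast_smul_eq_nsmul]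
    abel
  rw [← h, ZMod.natCast_self, zero_smul]

/-- The relation as an equation between functions. -/
private theorem rel_of_eq {q q' : ℕ} (F : Fin 3 → Fn3 q q')
    (h : F 0 - op3 1 0 1 1 (F 0) - (F 1 - op3 (-2) 1 (-1) 4 (F 1)) +
      (op3 1 0 1 1 (F 2) - op3 (-2) (-1) (-1) (-5) (F 2)) = 0) : Rel3 F := by
  intro x y
  exact congrFun (congrFun h x) y

/-- Correction of an approximate solution. -/
private theorem corr (hLw1 : S3Lw1) (hSur : S3Sur) (r s : ℕ) (D : ℤ)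
    (hD : D - 2 < 3 ^ r + 3 ^ s - 2) (F0 F1 F2 : Fn3 (3 ^ r) (3 ^ s))
    (h0 : F0 ∈ Wd3 D) (h1 : F1 ∈ Wd3 D) (h2 : F2 ∈ Wd3 D)
    (hlead : -(dY F0) + (dX (F1 + F2) - dY (F1 + F2)) = 0) :
    ∃ H0 H1 : Fn3 (3 ^ r) (3 ^ s), H0 ∈ Wd3 (D - 1) ∧ H1 ∈ Wd3 (D - 1) ∧
      Rel3 (![F0 - H0, F1 - H1, F2] : Fin 3 → Fn3 (3 ^ r) (3 ^ s)) := by
  obtain ⟨-, wB, wC, wD, -⟩ := hLw1 r s
  obtain ⟨B, hB⟩ : ∃ B : Module.End (ZMod 3) (Fn3 (3 ^ r) (3 ^ s)), B = op3 1 0 1 1 := ⟨_, rfl⟩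
  obtain ⟨C, hC⟩ : ∃ C : Module.End (ZMod 3) (Fn3 (3 ^ r) (3 ^ s)), C = op3 (-2) 1 (-1) 4 :=
    ⟨_, rfl⟩
  obtain ⟨T, hT⟩ : ∃ T : Module.End (ZMod 3) (Fn3 (3 ^ r) (3 ^ s)),
      T = op3 (-2) (-1) (-1) (-5) := ⟨_, rfl⟩
  rw [← hB] at wB
  rw [← hC] at wC
  rw [← hT] at wD
  obtain ⟨E, hE⟩ : ∃ E : Fn3 (3 ^ r) (3 ^ s),
      E = F0 - B F0 - (F1 - C F1) + (B F2 - T F2) := ⟨_, rfl⟩
  have hEW : E ∈ Wd3 (D - 2) := by
    have e1 : E = -((B - 1 - dY : Module.End (ZMod 3) (Fn3 (3 ^ r) (3 ^ s))) F0) +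
        (C - 1 - dX + dY : Module.End (ZMod 3) (Fn3 (3 ^ r) (3 ^ s))) F1 +
        ((B - 1 - dY : Module.End (ZMod 3) (Fn3 (3 ^ r) (3 ^ s))) F2 -
          (T - 1 + dX + dY : Module.End (ZMod 3) (Fn3 (3 ^ r) (3 ^ s))) F2) := by
      have e2 : -((B - 1 - dY : Module.End (ZMod 3) (Fn3 (3 ^ r) (3 ^ s))) F0) +
        (C - 1 - dX + dY : Module.End (ZMod 3) (Fn3 (3 ^ r) (3 ^ s))) F1 +
        ((B - 1 - dY : Module.End (ZMod 3) (Fn3 (3 ^ r) (3 ^ s))) F2 -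
          (T - 1 + dX + dY : Module.End (ZMod 3) (Fn3 (3 ^ r) (3 ^ s))) F2) +
          (-(dY F0) + (dX (F1 + F2) - dY (F1 + F2))) + (dY F2 + dY F2 + dY F2) = E +
          (dY F2 - dY F2) := by
        rw [hE]
        simp only [LinearMap.add_apply, LinearMap.sub_apply, Module.End.one_apply, map_add]
        abel
      rw [hlead, tpl, sub_self, add_zero, add_zero, add_zero] at e2
      exact e2.symm
    rw [e1]
    exact Submodule.add_mem _ (Submodule.add_mem _ (Submodule.neg_mem _ (wB _ _ h0)) (wC _ _ h1))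
      (Submodule.sub_mem _ (wB _ _ h2) (wD _ _ h2))
  obtain ⟨H0, H1, hH0, hH1, hHE⟩ := hSur r s (D - 2) E hD hEW
  have e : D - 2 + 1 = D - 1 := by ring
  rw [e] at hH0 hH1
  refine ⟨H0, H1, hH0, hH1, rel_of_eq _ ?_⟩
  change (F0 - H0) - op3 1 0 1 1 (F0 - H0) - ((F1 - H1) - op3 (-2) 1 (-1) 4 (F1 - H1)) +
    (op3 1 0 1 1 F2 - op3 (-2) (-1) (-1) (-5) F2) = 0
  rw [← hB, ← hC, ← hT]
  rw [← hB, ← hC] at hHE
  have e3 : (F0 - H0) - B (F0 - H0) - ((F1 - H1) - C (F1 - H1)) + (B F2 - T F2) =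
      (F0 - B F0 - (F1 - C F1) + (B F2 - T F2)) - (H0 - B H0 - (H1 - C H1)) := by
    simp only [map_sub]
    abel
  rw [e3, hHE, ← hE, sub_self]

theorem hLed (hLow0 : S3Low0) (hLw1 : S3Lw1) (hBb : S3Bb) (hSur : S3Sur) : S3Led := by
  intro r s al be hal hbe
  obtain ⟨-, -, -, -, wmono, -, ldx, ldy, hcomm, -⟩ := hLow0 r s
  obtain ⟨b1, -⟩ := hBb r s
  have hal' : (al : ℤ) < 3 ^ r := by exact_mod_cast hal
  have hbe' : (be : ℤ) < 3 ^ s := by exact_mod_cast hbe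
  obtain ⟨P, hP⟩ : ∃ P : Fn3 (3 ^ r) (3 ^ s), P = bb3 al be := ⟨_, rfl⟩
  have hPW : P ∈ Wd3 ((al : ℤ) + be) := by
    rw [hP]
    exact b1 al be hal hbe
  refine ⟨fun _ => ?_, ?_⟩
  · have hx : dX P ∈ Wd3 ((al : ℤ) + be - 1) := ldx _ _ hPW
    have hy : dY P ∈ Wd3 ((al : ℤ) + be - 1) := ldy _ _ hPW
    have hxy : dX (dY P) = dY (dX P) := by
      have h := congrArg (fun O : Module.End (ZMod 3) (Fn3 (3 ^ r) (3 ^ s)) => O P) hcomm
      exact h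
    have hlead : -(dY (dX P - dY P)) + (dX (-(dY P) + -(dY P)) - dY (-(dY P) + -(dY P))) = 0 := by
      have h : -(dY (dX P - dY P)) + (dX (-(dY P) + -(dY P)) - dY (-(dY P) + -(dY P))) =
          (dY (dY P) + dY (dY P) + dY (dY P)) - (dY (dX P) + dX (dY P) + dX (dY P)) := by
        simp only [map_sub, map_add, map_neg]
        abel
      rw [h, hxy, tpl, tpl, sub_zero]
    obtain ⟨H0, H1, hH0, hH1, hR⟩ := corr hLw1 hSur r s ((al : ℤ) + be - 1) (by linarith)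
      (dX P - dY P) (-(dY P)) (-(dY P)) (Submodule.sub_mem _ hx hy) (Submodule.neg_mem _ hy)
      (Submodule.neg_mem _ hy) hlead
    have e : (al : ℤ) + be - 1 - 1 = (al : ℤ) + be - 2 := by ring
    rw [e] at hH0 hH1
    have m1 : (Wd3 ((al : ℤ) + be - 2) : Submodule (ZMod 3) (Fn3 (3 ^ r) (3 ^ s))) ≤
        Wd3 ((al : ℤ) + be - 1) := wmono _ _ (by linarith)
    refine ⟨![(dX P - dY P) - H0, -(dY P) - H1, -(dY P)], hR, ?_, ?_⟩
    · intro f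
      fin_cases f
      · exact Submodule.sub_mem _ (Submodule.sub_mem _ hx hy) (m1 hH0)
      · exact Submodule.sub_mem _ (Submodule.neg_mem _ hy) (m1 hH1)
      · exact Submodule.neg_mem _ hy
    · change (dX P - dY P) - H0 - (dX (bb3 al be) - dY (bb3 al be)) ∈ Wd3 ((al : ℤ) + be - 2)
      rw [← hP]
      have h : (dX P - dY P) - H0 - (dX P - dY P) = -H0 := by abel
      rw [h]
      exact Submodule.neg_mem _ hH0
  · have hlead : -(dY (0 : Fn3 (3 ^ r) (3 ^ s))) + (dX (-P + P) - dY (-P + P)) = 0 := by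
      rw [neg_add_cancel, map_zero, map_zero, neg_zero, sub_zero, add_zero]
    obtain ⟨H0, H1, hH0, hH1, hR⟩ := corr hLw1 hSur r s ((al : ℤ) + be) (by linarith)
      0 (-P) P (Submodule.zero_mem _) (Submodule.neg_mem _ hPW) hPW hlead
    have m1 : (Wd3 ((al : ℤ) + be - 1) : Submodule (ZMod 3) (Fn3 (3 ^ r) (3 ^ s))) ≤
        Wd3 ((al : ℤ) + be) := wmono _ _ (by linarith)
    refine ⟨![0 - H0, -P - H1, P], hR, ?_, ?_, ?_⟩
    · intro f
      fin_cases f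
      · exact Submodule.sub_mem _ (Submodule.zero_mem _) (m1 hH0)
      · exact Submodule.sub_mem _ (Submodule.neg_mem _ hPW) (m1 hH1)
      · exact hPW
    · change (0 : Fn3 (3 ^ r) (3 ^ s)) - H0 ∈ Wd3 ((al : ℤ) + be - 1)
      exact Submodule.sub_mem _ (Submodule.zero_mem _) hH0
    · change (-P - H1) - P - bb3 al be ∈ Wd3 ((al : ℤ) + be - 1)
      rw [← hP]
      have h : (-P - H1) - P - P = -H1 - (P + P + P) := by abel
      rw [h, tpl, sub_zero]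
      exact Submodule.neg_mem _ hH1

end Pool.Agent.Helper62.W3
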